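import Mathlib
import Pool.Agent.Results.MP_8f56b8_lc.ExponentialLowerBound
import Pool.Agent.Results.MP_88d2b4_lc.OracleLowerBound

set_option autoImplicit false

/-!
Randomized value-oracle strategies and minimization up to an additive error.
-/

namespace Pool.Agent.Y591.VO

open Pool.Agent.Results.MP_8f56b8_lc.ExponentialLowerBound (QueryAlg)
open scoped ENNReal

/-- A randomized strategy with a value oracle on `X`: a probability distribution on deterministic
adaptive procedures which ask for values at points of `X` and output a point of `X`. -/
abbrev RandStrategy (X : Type) : Type := PMF (QueryAlg X (WithTop ℚ) X)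

/-- The probability that the output has the property `Q` when the oracle is `f`. -/
noncomputable def probability {X : Type} (D : RandStrategy X) (f : X → WithTop ℚ)
    (Q : X → Prop) : ℝ≥0∞ :=
  D.toOuterMeasure {T | Q (T.run f)}

/-- The expected number of oracle calls when the oracle is `f`. -/
noncomputable def expectedCalls {X : Type} (D : RandStrategy X) (f : X → WithTop ℚ) : ℝ≥0∞ :=
  ∑' T : QueryAlg X (WithTop ℚ) X, D T * (T.calls f : ℝ≥0∞)

/-- A finite value as a real number. -/
noncomputable def toR (v : WithTop ℚ) : ℝ := ((v.untopD 0 : ℚ) : ℝ)

/-- `f x` exceeds the minimum of `f` by at most `δ` times the largest absolute value of `f`. -/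
def NearMin {X : Type} (δ : ℝ) (f : X → WithTop ℚ) (x : X) : Prop :=
  ∃ z, ∀ y, toR (f x) ≤ toR (f y) + δ * |toR (f z)|

end Pool.Agent.Y591.VO
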