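import Mathlib
import Pool.Agent.Y591.MM.Adv
import Pool.Agent.Y591.VO.Defs

set_option autoImplicit false

/-!
Lower bounds for randomized value-oracle strategies on powers of the star with three atoms.
-/

namespace Pool.Agent.Y591.VO

open Finset
open Pool.Agent.Results.MP_8f56b8_lc.ExponentialLowerBound (QueryAlg)
open Pool.Agent.Results.MP_88d2b4_lc.OracleLowerBound (Star IsSubmodular IsModularSemilattice
  star_modular hard hard_submodular agr con fZ agr_add_con fZ_of_le W_le W w maxCard maxBits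
  maxBits_hard rk_eq)
open scoped ENNReal Classical

section Generic

variable {X κ : Type}

theorem probability_eq (D : RandStrategy X) (f : X → WithTop ℚ) (P : X → Prop) :
    probability D f P = ∑' T, D T * (if P (T.run f) then 1 else 0) := by
  unfold probability
  rw [PMF.toOuterMeasure_apply]
  apply tsum_congr
  intro T
  unfold Set.indicator
  by_cases h : P (T.run f)
  · simp [h]
  · simp [h]

theorem sum_probability_le (D : RandStrategy X) (f₀ : X → WithTop ℚ) (f : κ → X → WithTop ℚ)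
    (K : Finset κ) (m k : ℕ)
    (hm : ∀ q, (K.filter (fun a => f a q ≠ f₀ q)).card ≤ m)
    (Good : κ → X → Prop)
    (hk : ∀ X, (K.filter (fun a => Good a X)).card ≤ k * m) :
    ∑ a ∈ K, probability D (f a) (Good a) ≤ (m : ℝ≥0∞) * (expectedCalls D f₀ + k) := by
  have h1 : ∀ a ∈ K, probability D (f a) (Good a) =
      ∑' T, D T * (if Good a (T.run (f a)) then 1 else 0) :=
    fun a _ => probability_eq D (f a) (Good a)
  rw [sum_congr rfl h1, ← Summable.tsum_finsetSum (fun _ _ => ENNReal.summable)]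
  have h2 : (m : ℝ≥0∞) * (expectedCalls D f₀ + k) =
      ∑' T, D T * ((T.calls f₀ * m + k * m : ℕ) : ℝ≥0∞) := by
    have h3 : ∀ T, D T * ((T.calls f₀ * m + k * m : ℕ) : ℝ≥0∞) =
        (m : ℝ≥0∞) * (D T * (T.calls f₀ : ℝ≥0∞)) + (m * k : ℝ≥0∞) * D T := by
      intro T
      push_cast
      ring
    rw [tsum_congr h3, ENNReal.tsum_add, ENNReal.tsum_mul_left, ENNReal.tsum_mul_left, D.tsum_coe,
      mul_one, mul_add]
    rfl
  rw [h2]
  apply ENNReal.tsum_le_tsum
  intro T
  rw [← mul_sum, sum_boole]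
  apply mul_le_mul_right
  have := Pool.Agent.Y591.MM.card_good T f₀ f K m k (fun q => by
    refine le_trans (le_of_eq ?_) (hm q)
    congr) Good hk
  exact_mod_cast this

end Generic

variable {n : ℕ}

theorem atoms_le_one : ∀ y : Star,
    (univ.filter (fun c : Fin 3 => y = Star.atom c)).card ≤ 1 := by decide +kernel

theorem count_real (β : ℝ) (hβ : 1 ≤ β) (x : Fin n → Star) (t : ℕ) :
    β ^ t * (((univ : Finset (Fin n → Fin 3)).filter (fun P => t ≤ agr P x)).card : ℝ) ≤
      (2 + β) ^ n := by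
  have hβ0 : 0 ≤ β := by linarith
  calc β ^ t * (((univ : Finset (Fin n → Fin 3)).filter (fun P => t ≤ agr P x)).card : ℝ)
      = ∑ P ∈ (univ : Finset (Fin n → Fin 3)).filter (fun P => t ≤ agr P x), β ^ t := by
        rw [sum_const, nsmul_eq_mul, mul_comm]
    _ ≤ ∑ P ∈ (univ : Finset (Fin n → Fin 3)).filter (fun P => t ≤ agr P x), β ^ (agr P x) := by
        apply sum_le_sum
        intro P hP
        exact pow_le_pow_right₀ hβ (mem_filter.1 hP).2
    _ ≤ ∑ P : Fin n → Fin 3, β ^ (agr P x) :=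
        sum_le_sum_of_subset_of_nonneg (filter_subset _ _) (fun _ _ _ => by positivity)
    _ = ∑ P : Fin n → Fin 3, ∏ i, β ^ (if x i = Star.atom (P i) then 1 else 0) := by
        apply sum_congr rfl
        intro P _
        unfold agr
        rw [prod_pow_eq_pow_sum]
    _ = ∏ i : Fin n, ∑ c : Fin 3, β ^ (if x i = Star.atom c then 1 else 0) := by
        rw [prod_univ_sum]
        simp [Fintype.piFinset_univ]
    _ ≤ ∏ i : Fin n, (2 + β) := by
        apply prod_le_prod
        · intro i _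
          exact sum_nonneg (fun c _ => by positivity)
        · intro i _
          have h1 : ∑ c : Fin 3, β ^ (if x i = Star.atom c then 1 else 0) =
              ∑ c : Fin 3, (1 + (β - 1) * (if x i = Star.atom c then 1 else 0)) := by
            apply sum_congr rfl
            intro c _
            by_cases h : x i = Star.atom c
            · simp [h]
            · simp [h]
          rw [h1, sum_add_distrib, ← mul_sum, sum_boole]
          have h2 : ((univ.filter (fun c : Fin 3 => x i = Star.atom c)).card : ℝ) ≤ 1 := by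
            have h3 : (univ.filter (fun c : Fin 3 => x i = Star.atom c)).card ≤ 1 := by
              refine le_trans (le_of_eq ?_) (atoms_le_one (x i))
              congr
            exact_mod_cast h3
          have h4 : (β - 1) * ((univ.filter (fun c : Fin 3 => x i = Star.atom c)).card : ℝ) ≤
              (β - 1) * 1 := mul_le_mul_of_nonneg_left h2 (by linarith)
          simp only [sum_const, card_univ, Fintype.card_fin, nsmul_eq_mul, mul_one] at h4 ⊢
          push_cast
          linarith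
    _ = (2 + β) ^ n := by simp

/-- choice of the base -/
theorem base_choice (θ : ℝ) (h1 : 1 / 3 < θ) (h2 : θ < 1) :
    ∃ β : ℝ, 1 ≤ β ∧ ∃ a : ℝ, 1 < a ∧ ∀ n t : ℕ, θ * n ≤ t →
      (2 + β) ^ n ≤ β ^ t * (3 / a) ^ n := by
  set x : ℝ := (3 * θ - 1) / (4 * θ) with hx
  have hθ : 0 < θ := by linarith
  have hx0 : 0 < x := by
    rw [hx]
    apply div_pos <;> linarith
  have hx1 : x < 1 := by
    rw [hx, div_lt_one (by linarith)]
    linarith
  have hxe : x * (4 * θ) = 3 * θ - 1 := by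
    rw [hx]
    field_simp
  set β : ℝ := (1 - x)⁻¹ with hβ
  have h1x : 0 < 1 - x := by linarith
  have hβ1 : 1 ≤ β := by
    rw [hβ]
    exact (one_le_inv₀ h1x).2 (by linarith)
  have hβ0 : 0 < β := by linarith
  -- Bernoulli
  have hB : (1 - x) ^ θ ≤ 1 - θ * x := by
    have := rpow_one_add_le_one_add_mul_self (s := -x) (by linarith) hθ.le h2.le
    have e1 : 1 + -x = 1 - x := by ring
    have e2 : 1 + θ * -x = 1 - θ * x := by ring
    rwa [e1, e2] at this
  have hpow : β ^ θ = ((1 - x) ^ θ)⁻¹ := by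
    rw [hβ, Real.inv_rpow h1x.le]
  have hp0 : 0 < (1 - x) ^ θ := Real.rpow_pos_of_pos h1x θ
  have hβθ : 0 < β ^ θ := Real.rpow_pos_of_pos hβ0 θ
  have hkey : (2 + β) < 3 * β ^ θ := by
    rw [hpow, ← div_eq_mul_inv, lt_div_iff₀ hp0]
    have h3 : (2 + β) * (1 - x) = 3 - 2 * x := by
      rw [hβ, add_mul, inv_mul_cancel₀ h1x.ne']
      ring
    have h4 : (2 + β) * (1 - x) ^ θ ≤ (2 + β) * (1 - θ * x) :=
      mul_le_mul_of_nonneg_left hB (by linarith)
    refine lt_of_le_of_lt h4 ?_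
    have h5 : (2 + β) * (1 - θ * x) * (1 - x) < 3 * (1 - x) := by
      have : (2 + β) * (1 - θ * x) * (1 - x) = (3 - 2 * x) * (1 - θ * x) := by
        rw [← h3]; ring
      rw [this]
      nlinarith
    exact lt_of_mul_lt_mul_right h5 h1x.le
  refine ⟨β, hβ1, 3 * β ^ θ / (2 + β), ?_, fun n t ht => ?_⟩
  · rw [lt_div_iff₀ (by linarith)]
    linarith
  · have e1 : 3 / (3 * β ^ θ / (2 + β)) = (2 + β) / β ^ θ := by
      field_simp
    rw [e1, div_pow]
    have h6 : (β ^ θ) ^ n ≤ β ^ t := by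
      rw [← Real.rpow_natCast (β ^ θ) n, ← Real.rpow_mul hβ0.le, ← Real.rpow_natCast β t]
      exact Real.rpow_le_rpow_of_exponent_le hβ1 ht
    have h7 : 0 < (β ^ θ) ^ n := by positivity
    rw [mul_div_assoc', le_div_iff₀ h7, mul_comm]
    exact mul_le_mul_of_nonneg_right h6 (by positivity)

theorem toR_hard (P : Fin n → Fin 3) (r : ℕ) (q : Fin n → Star) :
    toR (hard P r q) = (fZ P r q : ℝ) := by
  unfold toR hard
  change (((((fZ P r q : ℤ) : ℚ)) : ℝ)) = _
  push_cast
  rfl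

theorem hard_ne_top (P : Fin n → Fin 3) (r : ℕ) (q : Fin n → Star) : hard P r q ≠ ⊤ := by
  intro h
  unfold hard at h
  exact Option.some_ne_none _ h

theorem fZ_abs (P : Fin n → Fin 3) (r : ℕ) (q : Fin n → Star) (hr : r ≤ n) :
    |fZ P r q| ≤ n := by
  have h1 := agr_add_con P q
  have h2 := W_le q
  rw [abs_le]
  unfold fZ
  omega

/-- the reference function is the rank function -/
theorem hard_ref (P : Fin n → Fin 3) (q : Fin n → Star) :
    hard P n q = ((W q : ℚ) : WithTop ℚ) := by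
  unfold hard
  rw [fZ_of_le P n q (by
    have h1 := agr_add_con P q
    have h2 := W_le q
    omega)]
  change ((((W q : ℕ) : ℤ) : ℚ) : WithTop ℚ) = _
  push_cast
  rfl

theorem main_bound (δ : ℝ) (hδ0 : 0 ≤ δ) (hδ : δ < 1 / 3) :
    ∃ a : ℝ, 1 < a ∧ ∀ n : ℕ, 0 < n → ∀ (D : RandStrategy (Fin n → Star)) (p : ℝ≥0∞),
      (∀ (P : Fin n → Fin 3) (r : ℕ), r ≤ n →
        p ≤ probability D (hard P r) (NearMin δ (hard P r))) →
      p * ENNReal.ofReal (a ^ n) ≤ expectedCalls D (hard (fun _ => 0) n) + 1 := by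
  set θ : ℝ := (1 / 3 + (1 - δ) / 2) / 2 with hθ
  have hθ1 : 1 / 3 < θ := by rw [hθ]; linarith
  have hθ2 : θ < (1 - δ) / 2 := by rw [hθ]; linarith
  have hθ3 : θ < 1 := by linarith
  obtain ⟨β, hβ, a, ha, hbase⟩ := base_choice θ hθ1 hθ3
  refine ⟨a, ha, fun n hn D p hD => ?_⟩
  have hn' : (0 : ℝ) < n := by exact_mod_cast hn
  set r : ℕ := ⌊θ * n⌋₊ with hr
  have hr1 : (r : ℝ) ≤ θ * n := Nat.floor_le (by positivity)
  have hr2 : θ * n ≤ ((r + 1 : ℕ) : ℝ) := by
    push_cast
    exact (Nat.lt_floor_add_one _).le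
  have hrn : r ≤ n := by
    have : (r : ℝ) ≤ (n : ℝ) := by nlinarith
    exact_mod_cast this
  have ha0 : (0 : ℝ) < a := by linarith
  -- few hidden points are detected by a query
  have hfew : ∀ q : Fin n → Star, ((univ : Finset (Fin n → Fin 3)).filter
      (fun P => hard P r q ≠ hard (fun _ => 0) n q)).card ≤ ⌊(3 / a) ^ n⌋₊ := by
    intro q
    have h1 : (univ : Finset (Fin n → Fin 3)).filter
        (fun P => hard P r q ≠ hard (fun _ => 0) n q) ⊆
        (univ : Finset (Fin n → Fin 3)).filter (fun P => r + 1 ≤ agr P q) := by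
      intro P hP
      rw [mem_filter] at hP ⊢
      refine ⟨hP.1, ?_⟩
      by_contra hcon
      apply hP.2
      rw [hard_ref]
      unfold hard
      rw [fZ_of_le P r q (by omega)]
      change ((((W q : ℕ) : ℤ) : ℚ) : WithTop ℚ) = _
      push_cast
      rfl
    refine (card_le_card h1).trans ?_
    apply Nat.le_floor
    have h2 := (count_real β hβ q (r + 1)).trans (hbase n (r + 1) hr2)
    have h3 : 0 < β ^ (r + 1) := by positivity
    exact le_of_mul_le_mul_left h2 h3
  have h1 := sum_probability_le D (hard (fun _ => 0) n) (fun P => hard P r)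
    (univ : Finset (Fin n → Fin 3)) ⌊(3 / a) ^ n⌋₊ 1 hfew
    (fun P X => NearMin δ (hard P r) X)
    (fun X => by
      rw [one_mul]
      refine le_trans (card_le_card ?_) (hfew X)
      intro P hP
      rw [mem_filter] at hP ⊢
      refine ⟨hP.1, fun heq => ?_⟩
      obtain ⟨z, hz⟩ := hP.2
      have h2 := hz (fun i => Star.atom (P i))
      rw [heq, hard_ref, toR_hard, toR_hard] at h2
      have h3 : toR ((W X : ℚ) : WithTop ℚ) = (W X : ℝ) := by
        unfold toR
        change (((W X : ℚ)) : ℝ) = _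
        push_cast
        rfl
      rw [h3] at h2
      have a1 : agr P (fun i => Star.atom (P i)) = n := by simp [agr]
      have a2 : con P (fun i => Star.atom (P i)) = 0 := by simp [con]
      have h4 : fZ P r (fun i => Star.atom (P i)) = 2 * (r : ℤ) - n := by
        unfold fZ
        rw [a1, a2]
        omega
      rw [h4] at h2
      have h5 : |((fZ P r z : ℤ) : ℝ)| ≤ n := by
        have := fZ_abs P r z hrn
        exact_mod_cast this
      have h6 : δ * |((fZ P r z : ℤ) : ℝ)| ≤ δ * n := mul_le_mul_of_nonneg_left h5 hδ0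
      have h7 : (0 : ℝ) ≤ (W X : ℝ) := Nat.cast_nonneg _
      push_cast at h2
      nlinarith)
  have h2 : ((3 ^ n : ℕ) : ℝ≥0∞) * p ≤ ∑ P : Fin n → Fin 3,
      probability D (hard P r) (NearMin δ (hard P r)) := by
    have h3 : (univ : Finset (Fin n → Fin 3)).card • p ≤ ∑ P : Fin n → Fin 3,
        probability D (hard P r) (NearMin δ (hard P r)) :=
      card_nsmul_le_sum _ _ _ (fun P _ => hD P r hrn)
    rw [card_univ, Fintype.card_fun, Fintype.card_fin, Fintype.card_fin, nsmul_eq_mul] at h3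
    exact h3
  have h3 : ((⌊(3 / a) ^ n⌋₊ : ℕ) : ℝ≥0∞) ≤ ENNReal.ofReal ((3 / a) ^ n) := by
    rw [← ENNReal.ofReal_natCast]
    exact ENNReal.ofReal_le_ofReal (Nat.floor_le (by positivity))
  have h4 : ((3 ^ n : ℕ) : ℝ≥0∞) * p ≤
      ENNReal.ofReal ((3 / a) ^ n) * (expectedCalls D (hard (fun _ => 0) n) + 1) := by
    refine (h2.trans h1).trans ?_
    push_cast
    gcongr
  have h5 : ENNReal.ofReal ((3 / a) ^ n) * ENNReal.ofReal (a ^ n) = ((3 ^ n : ℕ) : ℝ≥0∞) := by
    rw [← ENNReal.ofReal_mul (by positivity), ← mul_pow, div_mul_cancel₀ _ ha0.ne',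
      ← ENNReal.ofReal_natCast]
    push_cast
    rfl
  have h6 : ENNReal.ofReal ((3 / a) ^ n) * (p * ENNReal.ofReal (a ^ n)) ≤
      ENNReal.ofReal ((3 / a) ^ n) * (expectedCalls D (hard (fun _ => 0) n) + 1) := by
    refine le_trans (le_of_eq ?_) h4
    rw [← h5]
    ring
  have h7 : ENNReal.ofReal ((3 / a) ^ n) ≠ 0 := by
    rw [Ne, ENNReal.ofReal_eq_zero, not_le]
    positivity
  exact (ENNReal.mul_le_mul_iff_right h7 ENNReal.ofReal_ne_top).1 h6

/-- exponentials outgrow polynomials -/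
theorem exists_large (a : ℝ) (ha : 1 < a) (c : ℕ) :
    ∃ t : ℕ, 0 < t ∧ (((c * (2 * t + 7) ^ c * (c * (2 * t + 7) ^ c + 1) : ℕ)) : ℝ) < a ^ t := by
  have hlim : Filter.Tendsto (fun m : ℕ => (((c + 1 : ℕ) : ℝ) ^ 2 * (9 : ℝ) ^ (2 * c)) *
      ((m : ℝ) ^ (2 * c) / a ^ m)) Filter.atTop (nhds 0) := by
    have := (tendsto_pow_const_div_const_pow_of_one_lt (2 * c) ha).const_mul
      (((c + 1 : ℕ) : ℝ) ^ 2 * (9 : ℝ) ^ (2 * c))
    simpa using this
  have hev := hlim.eventually (gt_mem_nhds (show (0 : ℝ) < 1 by norm_num))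
  obtain ⟨t, ht1, ht⟩ := (hev.and (Filter.eventually_ge_atTop 1)).exists
  refine ⟨t, ht, ?_⟩
  have h7 : (0 : ℝ) < a ^ t := by positivity
  have h8 : (((c + 1 : ℕ) : ℝ) ^ 2 * (9 : ℝ) ^ (2 * c)) * ((t : ℝ) ^ (2 * c) / a ^ t)
      = (((c + 1 : ℕ) : ℝ) ^ 2 * (9 : ℝ) ^ (2 * c) * (t : ℝ) ^ (2 * c)) / a ^ t := by
    ring
  rw [h8, div_lt_one h7] at ht1
  refine lt_of_le_of_lt ?_ ht1
  have h2 : 2 * t + 7 ≤ 9 * t := by omega
  have h3 : (2 * t + 7) ^ c ≤ (9 * t) ^ c := Nat.pow_le_pow_left h2 c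
  have h4 : 1 ≤ (9 * t) ^ c := Nat.one_le_pow _ _ (by omega)
  set Y := (9 * t) ^ c with hY
  have h6 : c * (2 * t + 7) ^ c * (c * (2 * t + 7) ^ c + 1) ≤ ((c + 1) * Y) * ((c + 1) * Y) := by
    apply Nat.mul_le_mul
    · nlinarith
    · nlinarith
  have h9 : ((c + 1) * Y) * ((c + 1) * Y) = (c + 1) ^ 2 * 9 ^ (2 * c) * t ^ (2 * c) := by
    rw [hY, mul_pow]
    ring
  rw [h9] at h6
  exact_mod_cast h6

theorem no_polynomial (δ : ℝ) (hδ0 : 0 ≤ δ) (hδ : δ < 1 / 3) :
    ¬ ∃ c : ℕ, ∀ (n : ℕ) (L : Fin n → Type) [∀ i, SemilatticeInf (L i)]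
      [∀ i, OrderBot (L i)] [∀ i, Fintype (L i)], (∀ i, IsModularSemilattice (L i)) →
      ∃ D : RandStrategy (∀ i, L i), ∀ f : (∀ i, L i) → WithTop ℚ, (∀ p, f p ≠ ⊤) →
        IsSubmodular f →
        expectedCalls D f ≤ ((c * (n + maxCard L + maxBits f + 1) ^ c : ℕ) : ℝ≥0∞) ∧
        ((c * (n + maxCard L + maxBits f + 1) ^ c : ℕ) : ℝ≥0∞)⁻¹ ≤
          probability D f (NearMin δ f) := by
  rintro ⟨c, H⟩
  obtain ⟨a, ha, hmain⟩ := main_bound δ hδ0 hδ
  obtain ⟨n, hn, hlarge⟩ := exists_large a ha c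
  obtain ⟨D, hD⟩ := H n (fun _ => Star) (fun _ => star_modular)
  set b : ℕ := c * (2 * n + 7) ^ c with hb
  have hle : ∀ (P : Fin n → Fin 3) (r : ℕ),
      c * (n + maxCard (fun _ : Fin n => Star) + maxBits (hard P r) + 1) ^ c ≤ b := by
    intro P r
    apply Nat.mul_le_mul_left
    apply Nat.pow_le_pow_left
    have h1 := maxBits_hard P r
    have h2 : maxCard (fun _ : Fin n => Star) ≤ 4 := by
      unfold maxCard
      apply Finset.sup_le
      intro i _
      change Fintype.card Star ≤ 4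
      decide +kernel
    omega
  have h1 := hmain n hn D ((b : ℝ≥0∞)⁻¹) (fun P r _ => by
    have h2 := (hD (hard P r) (hard_ne_top P r) (hard_submodular P r)).2
    refine le_trans ?_ h2
    apply ENNReal.inv_le_inv.2
    exact_mod_cast hle P r)
  have h2 : expectedCalls D (hard (fun _ => 0) n) ≤ (b : ℝ≥0∞) := by
    have h3 := (hD (hard (fun _ => 0) n) (hard_ne_top _ _) (hard_submodular _ _)).1
    refine h3.trans ?_
    exact_mod_cast hle (fun _ => 0) n
  have h3 : (b : ℝ≥0∞)⁻¹ * ENNReal.ofReal (a ^ n) ≤ (b : ℝ≥0∞) + 1 := h1.trans (by gcongr)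
  have ha0 : (0 : ℝ) < a := by linarith
  have h2t : ENNReal.ofReal (a ^ n) ≠ 0 := by
    rw [Ne, ENNReal.ofReal_eq_zero, not_le]
    positivity
  have hb0 : (b : ℝ≥0∞) ≠ 0 := by
    intro h0
    rw [h0, ENNReal.inv_zero, ENNReal.top_mul h2t] at h3
    rw [zero_add, top_le_iff] at h3
    exact ENNReal.one_ne_top h3
  have h4 : ENNReal.ofReal (a ^ n) ≤ (b : ℝ≥0∞) * ((b : ℝ≥0∞) + 1) := by
    calc ENNReal.ofReal (a ^ n) = (b : ℝ≥0∞) * ((b : ℝ≥0∞)⁻¹ * ENNReal.ofReal (a ^ n)) := by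
          rw [← mul_assoc, ENNReal.mul_inv_cancel hb0 (ENNReal.natCast_ne_top b), one_mul]
      _ ≤ _ := by gcongr
  have h5 : ENNReal.ofReal (a ^ n) ≤ ((b * (b + 1) : ℕ) : ℝ≥0∞) := by
    refine h4.trans (le_of_eq ?_)
    push_cast
    rfl
  rw [← ENNReal.ofReal_natCast, ENNReal.ofReal_le_ofReal_iff (by positivity)] at h5
  linarith

end Pool.Agent.Y591.VO
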